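import Pool.Agent.Helper72.PT.St

/-! PT module Dec: splitting of lists -/

open Finset

namespace Pool.PT

open Pool.HW Pool.PL

section

theorem sum_le_of_inj {ι κ : Type} [DecidableEq κ] (s : Finset ι) (t : Finset κ) (e : ι → κ)
    (f : ι → ℝ) (g : κ → ℝ) (he : Set.InjOn e s) (hm : ∀ i ∈ s, e i ∈ t)
    (hf : ∀ i ∈ s, f i ≤ g (e i)) (hg : ∀ k ∈ t, 0 ≤ g k) : ∑ i ∈ s, f i ≤ ∑ k ∈ t, g k := by
  calc ∑ i ∈ s, f i ≤ ∑ i ∈ s, g (e i) := sum_le_sum hf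
    _ = ∑ k ∈ s.image e, g k := (sum_image he).symm
    _ ≤ ∑ k ∈ t, g k := sum_le_sum_of_subset_of_nonneg
        (fun k hk => by
          obtain ⟨i, hi, rfl⟩ := mem_image.1 hk
          exact hm i hi) (fun k hk _ => hg k hk)

variable {α : Type} [DecidableEq α] (S : Sys α)

/-- the first part of the bound -/
theorem dec_one (k0 : ℝ) (h : ℕ) (φ : List α → ℝ) (ρ : List α → List α → ℝ) (hk : 0 < k0)
    (hφ : ∀ B, 0 ≤ φ B) (hρ : ∀ L' L, 0 ≤ ρ L' L)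
    (hh : ∀ B ∈ S.LH h, ∀ L' L, L' <+: B → L <:+ B → L'.length + L.length ≤ B.length →
      φ B ≤ ρ L' L) (D : Finset (List α)) (hD : ∀ B ∈ D, B ∈ S.LH h ∧ k0 ≤ (B.length : ℝ) + 1) :
    ∑ B ∈ D, S.wt B * φ B ≤ ∑ y ∈ range (h + 1), (1 / k0) *
      ∑ q ∈ S.LH (h - y) ×ˢ S.LH y, S.wt q.1 * S.wt q.2 * ρ q.1 q.2 := by
  have h1 : ∀ B ∈ D, S.wt B * φ B ≤ ∑ i ∈ range (B.length + 1),
      (1 / k0) * (S.wt B * ρ (B.take i) (B.drop i)) := by
    intro B hB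
    obtain ⟨hB1, hB2⟩ := hD B hB
    have h2 : ∀ i ∈ range (B.length + 1), (1 / k0) * (S.wt B * φ B) ≤
        (1 / k0) * (S.wt B * ρ (B.take i) (B.drop i)) := by
      intro i hi
      have h3 : φ B ≤ ρ (B.take i) (B.drop i) := by
        refine hh B hB1 _ _ (List.take_prefix _ _) (List.drop_suffix _ _) ?_
        rw [List.length_take, List.length_drop]
        omega
      have h4 : 0 ≤ 1 / k0 := by positivity
      exact mul_le_mul_of_nonneg_left (mul_le_mul_of_nonneg_left h3 (S.wt_nonneg B)) h4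
    have h5 : ∑ i ∈ range (B.length + 1), (1 / k0) * (S.wt B * φ B) =
        (((B.length : ℝ) + 1) / k0) * (S.wt B * φ B) := by
      rw [sum_const, card_range, nsmul_eq_mul]
      push_cast
      ring
    refine le_trans ?_ (sum_le_sum h2)
    rw [h5]
    have h0 : 0 ≤ S.wt B * φ B := mul_nonneg (S.wt_nonneg B) (hφ B)
    have h6 : 1 ≤ ((B.length : ℝ) + 1) / k0 := by
      rw [le_div_iff₀ hk]
      linarith
    nlinarith
  refine (sum_le_sum h1).trans ?_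
  have h7 : ∀ y ∈ range (h + 1), (1 / k0) *
      ∑ q ∈ S.LH (h - y) ×ˢ S.LH y, S.wt q.1 * S.wt q.2 * ρ q.1 q.2 =
      ∑ q ∈ S.LH (h - y) ×ˢ S.LH y, (1 / k0) * (S.wt q.1 * S.wt q.2 * ρ q.1 q.2) :=
    fun y _ => mul_sum _ _ _
  rw [sum_congr rfl h7, sum_sigma', sum_sigma']
  refine sum_le_of_inj _ _ (fun x : (Σ _ : List α, ℕ) =>
    (⟨S.ht (x.1.drop x.2), (x.1.take x.2, x.1.drop x.2)⟩ : (Σ _ : ℕ, List α × List α))) _ _
    ?_ ?_ ?_ ?_
  · rintro ⟨B, i⟩ hx ⟨B', i'⟩ hx' he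
    rw [mem_coe, mem_sigma] at hx hx'
    simp only [mem_range] at hx hx'
    simp only [Sigma.mk.injEq, heq_eq_eq, Prod.mk.injEq] at he
    obtain ⟨_, e1, e2⟩ := he
    have e3 : B = B' := by
      rw [← List.take_append_drop i B, e1, e2, List.take_append_drop]
    subst e3
    have e4 := congrArg List.length e1
    rw [List.length_take, List.length_take] at e4
    have e5 : i = i' := by omega
    rw [e5]
  · rintro ⟨B, i⟩ hx
    rw [mem_sigma] at hx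
    obtain ⟨hB1, hB2⟩ := hD B hx.1
    have hB3 := (S.mem_LH.1 hB1)
    have e1 : S.ht (B.take i) + S.ht (B.drop i) = h := by
      rw [← S.ht_append, List.take_append_drop]
      exact hB3.2
    refine mem_sigma.2 ⟨mem_range.2 ?_, mem_product.2 ⟨S.mem_LH.2 ⟨?_, ?_⟩, S.mem_LH.2 ⟨?_, rfl⟩⟩⟩
    · show S.ht (B.drop i) < h + 1
      omega
    · exact fun p hp => hB3.1 p (List.mem_of_mem_take hp)
    · show S.ht (B.take i) = h - S.ht (B.drop i)
      omega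
    · exact fun p hp => hB3.1 p (List.mem_of_mem_drop hp)
  · rintro ⟨B, i⟩ hx
    show (1 / k0) * (S.wt B * ρ (B.take i) (B.drop i)) ≤
      (1 / k0) * (S.wt (B.take i) * S.wt (B.drop i) * ρ (B.take i) (B.drop i))
    rw [← S.wt_append, List.take_append_drop]
  · rintro ⟨y, q⟩ _
    have h4 : 0 ≤ 1 / k0 := by positivity
    exact mul_nonneg h4 (mul_nonneg (mul_nonneg (S.wt_nonneg _) (S.wt_nonneg _)) (hρ _ _))

/-- the second part of the bound -/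
theorem dec_two (ℓ h : ℕ) (φ : List α → ℝ) (ρ : List α → List α → ℝ)
    (hρ : ∀ L' L, 0 ≤ ρ L' L)
    (hh : ∀ B ∈ S.LH h, ∀ L' L, L' <+: B → L <:+ B → L'.length + L.length ≤ B.length →
      φ B ≤ ρ L' L) (D : Finset (List α)) (hD : ∀ B ∈ D, B ∈ S.LH h ∧ ∃ p ∈ B, ℓ < S.τ p) :
    ∑ B ∈ D, S.wt B * φ B ≤ ∑ y ∈ range (h + 1), ∑ g ∈ range (h - y + 1),
      (if ℓ < g then S.pp g else 0) *
      ∑ q ∈ S.LH (h - y - g) ×ˢ S.LH y, S.wt q.1 * S.wt q.2 * ρ q.1 q.2 := by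
  have hnn : ∀ y ∈ range (h + 1), ∀ g ∈ range (h - y + 1), (if ℓ < g then S.pp g else 0) *
      ∑ q ∈ S.LH (h - y - g) ×ˢ S.LH y, S.wt q.1 * S.wt q.2 * ρ q.1 q.2 =
      ∑ p ∈ S.P.filter (fun p => S.τ p = g ∧ ℓ < g), ∑ q ∈ S.LH (h - y - g) ×ˢ S.LH y,
        S.w p * (S.wt q.1 * S.wt q.2 * ρ q.1 q.2) := by
    intro y _ g _
    have e1 : (if ℓ < g then S.pp g else 0) =
        ∑ p ∈ S.P.filter (fun p => S.τ p = g ∧ ℓ < g), S.w p := by
      split_ifs with hg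
      · rw [Sys.pp]
        refine sum_congr ?_ fun _ _ => rfl
        ext p
        simp [hg]
      · rw [filter_false_of_mem, sum_empty]
        intro p _ hp
        exact hg hp.2
    rw [e1, sum_mul]
    exact sum_congr rfl fun p _ => mul_sum _ _ _
  rcases D.eq_empty_or_nonempty with rfl | hne
  · rw [sum_empty]
    refine sum_nonneg fun y hy => sum_nonneg fun g hg => ?_
    rw [hnn y hy g hg]
    exact sum_nonneg fun p _ => sum_nonneg fun q _ => mul_nonneg (S.w_nonneg _)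
      (mul_nonneg (mul_nonneg (S.wt_nonneg _) (S.wt_nonneg _)) (hρ _ _))
  have hN : Nonempty α := by
    obtain ⟨B, hB⟩ := hne
    obtain ⟨_, p, hp, _⟩ := hD B hB
    exact ⟨p⟩
  have h1 : ∀ B ∈ D, ∃ t : α × List α × List α, B = t.2.1 ++ t.1 :: t.2.2 ∧ ℓ < S.τ t.1 := by
    intro B hB
    obtain ⟨_, p, hp, hp2⟩ := hD B hB
    obtain ⟨s, t, hst⟩ := List.append_of_mem hp
    exact ⟨(p, s, t), hst, hp2⟩
  choose! c hc using h1
  rw [sum_congr rfl fun y hy => sum_congr rfl fun g hg => hnn y hy g hg]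
  have h2 : ∀ y ∈ range (h + 1), ∑ g ∈ range (h - y + 1),
      ∑ p ∈ S.P.filter (fun p => S.τ p = g ∧ ℓ < g), ∑ q ∈ S.LH (h - y - g) ×ˢ S.LH y,
        S.w p * (S.wt q.1 * S.wt q.2 * ρ q.1 q.2) =
      ∑ x ∈ (range (h - y + 1)).sigma (fun g => (S.P.filter (fun p => S.τ p = g ∧ ℓ < g)) ×ˢ
        (S.LH (h - y - g) ×ˢ S.LH y)),
        S.w x.2.1 * (S.wt x.2.2.1 * S.wt x.2.2.2 * ρ x.2.2.1 x.2.2.2) := by
    intro y _
    rw [sum_sigma]
    exact sum_congr rfl fun g _ => by rw [sum_product]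
  rw [sum_congr rfl h2, sum_sigma']
  refine sum_le_of_inj _ _ (fun B : List α => (⟨S.ht (c B).2.2, ⟨S.τ (c B).1, c B⟩⟩ :
    (Σ _ : ℕ, Σ _ : ℕ, α × List α × List α))) _ _ ?_ ?_ ?_ ?_
  · intro B hB B' hB' he
    simp only [Sigma.mk.injEq, heq_eq_eq] at he
    rw [(hc B hB).1, (hc B' hB').1, he.2.2]
  · intro B hB
    obtain ⟨e1, e2⟩ := hc B hB
    have e3 := S.mem_LH.1 (hD B hB).1
    have e4 : S.ht (c B).2.1 + (S.τ (c B).1 + S.ht (c B).2.2) = h := by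
      rw [← S.ht_cons, ← S.ht_append, ← e1]
      exact e3.2
    have e5 : ∀ p ∈ (c B).2.1 ++ (c B).1 :: (c B).2.2, p ∈ S.P := by
      rw [← e1]
      exact e3.1
    refine mem_sigma.2 ⟨mem_range.2 ?_, mem_sigma.2 ⟨mem_range.2 ?_, mem_product.2
      ⟨mem_filter.2 ⟨e5 _ (by simp), rfl, e2⟩, mem_product.2 ⟨S.mem_LH.2 ⟨?_, ?_⟩,
        S.mem_LH.2 ⟨?_, rfl⟩⟩⟩⟩⟩
    · show S.ht (c B).2.2 < h + 1
      omega
    · show S.τ (c B).1 < h - S.ht (c B).2.2 + 1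
      omega
    · exact fun p hp => e5 p (by simp [hp])
    · show S.ht (c B).2.1 = h - S.ht (c B).2.2 - S.τ (c B).1
      omega
    · exact fun p hp => e5 p (by simp [hp])
  · intro B hB
    obtain ⟨e1, e2⟩ := hc B hB
    show S.wt B * φ B ≤
      S.w (c B).1 * (S.wt (c B).2.1 * S.wt (c B).2.2 * ρ (c B).2.1 (c B).2.2)
    have e3 : φ B ≤ ρ (c B).2.1 (c B).2.2 := by
      refine hh B (hD B hB).1 _ _ ?_ ?_ ?_
      · conv_rhs => rw [e1]
        exact List.prefix_append _ _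
      · conv_rhs => rw [e1]
        exact (List.suffix_cons _ _).trans (List.suffix_append _ _)
      · have e6 := congrArg List.length e1
        rw [List.length_append, List.length_cons] at e6
        omega
    have e4 : S.wt B = S.w (c B).1 * (S.wt (c B).2.1 * S.wt (c B).2.2) := by
      conv_lhs => rw [e1]
      rw [S.wt_append, S.wt_cons]
      ring
    rw [e4]
    have e5 : 0 ≤ S.w (c B).1 * (S.wt (c B).2.1 * S.wt (c B).2.2) :=
      mul_nonneg (S.w_nonneg _) (mul_nonneg (S.wt_nonneg _) (S.wt_nonneg _))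
    calc S.w (c B).1 * (S.wt (c B).2.1 * S.wt (c B).2.2) * φ B
        ≤ S.w (c B).1 * (S.wt (c B).2.1 * S.wt (c B).2.2) * ρ (c B).2.1 (c B).2.2 :=
          mul_le_mul_of_nonneg_left e3 e5
      _ = _ := by ring
  · rintro ⟨y, g, p, q⟩ _
    exact mul_nonneg (S.w_nonneg _) (mul_nonneg (mul_nonneg (S.wt_nonneg _) (S.wt_nonneg _))
      (hρ _ _))

end

theorem dec : StDec := by
  intro α _ S k0 ℓ h φ ρ hk hφ hρ hh
  classical
  have hbad : (S.LH h).filter (fun B => (B.length : ℝ) + 1 < k0 ∧ ∀ p ∈ B, S.τ p ≤ ℓ) =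
      ((S.LH h).filter (fun B => ¬ k0 ≤ (B.length : ℝ) + 1)).filter
        (fun B => ¬ ∃ p ∈ B, ℓ < S.τ p) := by
    ext B
    simp only [mem_filter, not_le, not_exists, not_and, not_lt]
    tauto
  have e1 : ∑ B ∈ S.LH h, S.wt B * φ B =
      ∑ B ∈ (S.LH h).filter (fun B => k0 ≤ (B.length : ℝ) + 1), S.wt B * φ B +
      (∑ B ∈ ((S.LH h).filter (fun B => ¬ k0 ≤ (B.length : ℝ) + 1)).filter
        (fun B => ∃ p ∈ B, ℓ < S.τ p), S.wt B * φ B +
      ∑ B ∈ ((S.LH h).filter (fun B => ¬ k0 ≤ (B.length : ℝ) + 1)).filter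
        (fun B => ¬ ∃ p ∈ B, ℓ < S.τ p), S.wt B * φ B) := by
    rw [sum_filter_add_sum_filter_not, sum_filter_add_sum_filter_not]
  have e2 : ∑ B ∈ ((S.LH h).filter (fun B => ¬ k0 ≤ (B.length : ℝ) + 1)).filter
        (fun B => ¬ ∃ p ∈ B, ℓ < S.τ p), S.wt B * φ B ≤ S.bad k0 ℓ h * ρ [] [] := by
    rw [Sys.bad, sum_mul, ← hbad]
    refine (sum_le_sum (g := fun B => S.wt B * ρ [] []) fun B hB => ?_).trans (le_of_eq ?_)
    · rw [mem_filter] at hB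
      refine mul_le_mul_of_nonneg_left (hh B hB.1 [] [] ?_ ?_ ?_) (S.wt_nonneg B)
      · exact List.nil_prefix
      · exact List.nil_suffix
      · simp
    · refine sum_congr ?_ fun _ _ => rfl
      ext B
      simp only [mem_filter]
  have e3 := dec_one S k0 h φ ρ hk hφ hρ hh
    ((S.LH h).filter (fun B => k0 ≤ (B.length : ℝ) + 1)) (fun B hB => mem_filter.1 hB)
  have e4 := dec_two S ℓ h φ ρ hρ hh (((S.LH h).filter
    (fun B => ¬ k0 ≤ (B.length : ℝ) + 1)).filter (fun B => ∃ p ∈ B, ℓ < S.τ p)) (fun B hB =>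
      ⟨(mem_filter.1 (mem_filter.1 hB).1).1, (mem_filter.1 hB).2⟩)
  have e5 : ∀ y ∈ range (h + 1), ∑ g ∈ range (h - y + 1), S.qq k0 ℓ g *
      ∑ q ∈ S.LH (h - y - g) ×ˢ S.LH y, S.wt q.1 * S.wt q.2 * ρ q.1 q.2 =
      (1 / k0) * ∑ q ∈ S.LH (h - y) ×ˢ S.LH y, S.wt q.1 * S.wt q.2 * ρ q.1 q.2 +
      ∑ g ∈ range (h - y + 1), (if ℓ < g then S.pp g else 0) *
      ∑ q ∈ S.LH (h - y - g) ×ˢ S.LH y, S.wt q.1 * S.wt q.2 * ρ q.1 q.2 := by
    intro y _
    rw [sum_range_succ', sum_range_succ' (fun g => (if ℓ < g then S.pp g else 0) *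
      ∑ q ∈ S.LH (h - y - g) ×ˢ S.LH y, S.wt q.1 * S.wt q.2 * ρ q.1 q.2)]
    have f1 : S.qq k0 ℓ 0 = 1 / k0 := if_pos rfl
    have f2 : ∀ g, S.qq k0 ℓ (g + 1) = if ℓ < g + 1 then S.pp (g + 1) else 0 :=
      fun g => if_neg (Nat.succ_ne_zero g)
    simp only [f1, f2, Nat.not_lt_zero, if_false, zero_mul, add_zero, Nat.sub_zero]
    ring
  rw [e1, sum_congr rfl e5, sum_add_distrib]
  linarith

end Pool.PT
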