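import Pool.Agent.Helper72.PT.St

/-! PT module JP: decomposition into joint pieces -/

open Finset

namespace Pool.PT

open Pool.HW Pool.PL

section

variable {α : Type} (S : Sys α)

theorem ht_pos_of_ne_nil {L : List α} (hL : ∀ p ∈ L, p ∈ S.P) (h : L ≠ []) : 1 ≤ S.ht L := by
  have h1 := S.length_le_ht hL
  have h2 := List.length_pos_iff.2 h
  omega

theorem mem_of_prefix {K L : List α} (hL : ∀ p ∈ L, p ∈ S.P) (h : K <+: L) : ∀ p ∈ K, p ∈ S.P :=
  fun p hp => hL p (h.subset hp)

theorem pos_of_mem_hts {L : List α} (hL : ∀ p ∈ L, p ∈ S.P) {t : ℕ} (h : t ∈ S.hts L) : 1 ≤ t := by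
  obtain ⟨K, hK, hne, rfl⟩ := S.mem_hts.1 h
  exact ht_pos_of_ne_nil S (mem_of_prefix S hL hK) hne

theorem mem_hts_append {K L : List α} (hL : ∀ p ∈ K ++ L, p ∈ S.P) {s : ℕ} (hs : S.ht K < s) :
    s ∈ S.hts (K ++ L) ↔ s - S.ht K ∈ S.hts L := by
  rw [S.mem_hts, S.mem_hts]
  constructor
  · rintro ⟨A, hA, hne, rfl⟩
    have h1 : K <+: A := S.prefix_of_ht_le hL (List.prefix_append K L) hA hs.le
    obtain ⟨B, rfl⟩ := h1
    refine ⟨B, (List.prefix_append_right_inj K).1 hA, ?_, ?_⟩
    · rintro rfl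
      simp at hs
    · rw [S.ht_append]
      omega
  · rintro ⟨B, hB, hne, hh⟩
    refine ⟨K ++ B, (List.prefix_append_right_inj K).2 hB, ?_, ?_⟩
    · simp [hne]
    · rw [S.ht_append, hh]
      omega

theorem nc_append {K K' L L' : List α} (hL : ∀ p ∈ K ++ L, p ∈ S.P)
    (hL' : ∀ p ∈ K' ++ L', p ∈ S.P) (hh : S.ht K = S.ht K')
    (hmin : ∀ s ∈ S.hts (K ++ L) ∩ S.hts (K' ++ L'), S.ht K ≤ s)
    (hmem : S.ht K ∈ S.hts (K ++ L) ∩ S.hts (K' ++ L')) :
    S.nc (K ++ L) (K' ++ L') = S.nc L L' + 1 := by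
  have h0 : S.hts (K ++ L) ∩ S.hts (K' ++ L') =
      insert (S.ht K) ((S.hts L ∩ S.hts L').image fun s => S.ht K + s) := by
    ext s
    rw [mem_insert, mem_image]
    constructor
    · intro hs
      rcases eq_or_lt_of_le (hmin s hs) with h1 | h1
      · exact Or.inl h1.symm
      · right
        rw [mem_inter] at hs
        refine ⟨s - S.ht K, mem_inter.2 ⟨(mem_hts_append S hL h1).1 hs.1, ?_⟩, by omega⟩
        rw [hh]
        exact (mem_hts_append S hL' (hh ▸ h1)).1 hs.2
    · rintro (rfl | ⟨b, hb, rfl⟩)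
      · exact hmem
      · rw [mem_inter] at hb
        have hLL : ∀ p ∈ L, p ∈ S.P := fun p hp => hL p (List.mem_append_right _ hp)
        have hb1 := pos_of_mem_hts S hLL hb.1
        refine mem_inter.2 ⟨(mem_hts_append S hL (by omega)).2 ?_,
          (mem_hts_append S hL' (by omega)).2 ?_⟩
        · rw [show S.ht K + b - S.ht K = b by omega]
          exact hb.1
        · rw [show S.ht K + b - S.ht K' = b by omega]
          exact hb.2
  have h1 : S.ht K ∉ (S.hts L ∩ S.hts L').image fun s => S.ht K + s := by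
    rw [mem_image]
    rintro ⟨b, hb, hb2⟩
    rw [mem_inter] at hb
    have hLL : ∀ p ∈ L, p ∈ S.P := fun p hp => hL p (List.mem_append_right _ hp)
    have hb1 := pos_of_mem_hts S hLL hb.1
    omega
  rw [Sys.nc, h0, card_insert_of_notMem h1, Sys.nc,
    card_image_of_injective _ (fun a b h => by simpa using h)]

theorem jp_exists : ∀ (n : ℕ) (L L' : List α), L.length = n → (∀ p ∈ L, p ∈ S.P) →
    (∀ p ∈ L', p ∈ S.P) →
    ∃ (l : List (List α × List α)) (R R' : List α), (∀ g ∈ l, S.IsJ g) ∧ S.IsR (R, R') ∧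
      L = jn1 l ++ R ∧ L' = jn2 l ++ R' ∧ l.length = S.nc L L' := by
  intro n
  induction n using Nat.strong_induction_on with
  | _ n ih =>
    intro L L' hn hL hL'
    by_cases hne : (S.hts L ∩ S.hts L').Nonempty
    · have hmem := min'_mem _ hne
      have hmin : ∀ s ∈ S.hts L ∩ S.hts L', (S.hts L ∩ S.hts L').min' hne ≤ s :=
        fun s hs => min'_le _ s hs
      generalize (S.hts L ∩ S.hts L').min' hne = t at hmem hmin
      obtain ⟨⟨K, hK, hKn, hKt⟩, ⟨K', hK', hKn', hKt'⟩⟩ :=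
        And.intro (S.mem_hts.1 (mem_inter.1 hmem).1) (S.mem_hts.1 (mem_inter.1 hmem).2)
      subst hKt
      obtain ⟨L1, rfl⟩ := hK
      obtain ⟨L1', rfl⟩ := hK'
      have hL1 : ∀ p ∈ L1, p ∈ S.P := fun p hp => hL p (List.mem_append_right _ hp)
      have hL1' : ∀ p ∈ L1', p ∈ S.P := fun p hp => hL' p (List.mem_append_right _ hp)
      have hKP : ∀ p ∈ K, p ∈ S.P := fun p hp => hL p (List.mem_append_left _ hp)
      have hKP' : ∀ p ∈ K', p ∈ S.P := fun p hp => hL' p (List.mem_append_left _ hp)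
      have hlen : L1.length < n := by
        have := List.length_pos_iff.2 hKn
        rw [List.length_append] at hn
        omega
      obtain ⟨l, R, R', h1, h2, h3, h4, h5⟩ := ih _ hlen L1 L1' rfl hL1 hL1'
      refine ⟨(K, K') :: l, R, R', ?_, h2, ?_, ?_, ?_⟩
      · intro g hg
        rcases List.mem_cons.1 hg with rfl | hg
        · refine ⟨hKP, hKP', hKt'.symm, ht_pos_of_ne_nil S hKP hKn, ?_⟩
          intro A A' hA hA' hAA hA1
          have hAne : A ≠ [] := by
            rintro rfl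
            simp at hA1
          have hAne' : A' ≠ [] := by
            rintro rfl
            rw [hAA] at hA1
            simp at hA1
          have h6 : S.ht A ∈ S.hts (K ++ L1) ∩ S.hts (K' ++ L1') :=
            mem_inter.2 ⟨S.mem_hts.2 ⟨A, hA.trans (List.prefix_append _ _), hAne, rfl⟩,
              S.mem_hts.2 ⟨A', hA'.trans (List.prefix_append _ _), hAne', hAA.symm⟩⟩
          have h7 := hmin _ h6
          obtain ⟨B, hB⟩ := hA
          have h8 : S.ht K = S.ht A + S.ht B := by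
            rw [← S.ht_append, hB]
          show S.ht A = S.ht K
          omega
        · exact h1 g hg
      · rw [jn1, List.map_cons, List.flatten_cons, List.append_assoc]
        exact congrArg (K ++ ·) h3
      · rw [jn2, List.map_cons, List.flatten_cons, List.append_assoc]
        exact congrArg (K' ++ ·) h4
      · rw [List.length_cons, h5]
        exact (nc_append S hL hL' hKt'.symm hmin hmem).symm
    · refine ⟨[], L, L', by simp, ?_, by simp [jn1], by simp [jn2], ?_⟩
      · intro K K' hK hK' hh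
        by_contra hpos
        refine hne ⟨S.ht K, mem_inter.2 ⟨S.mem_hts.2 ⟨K, hK, ?_, rfl⟩,
          S.mem_hts.2 ⟨K', hK', ?_, hh.symm⟩⟩⟩
        · rintro rfl
          exact hpos rfl
        · rintro rfl
          rw [hh] at hpos
          exact hpos rfl
      · rw [not_nonempty_iff_eq_empty] at hne
        rw [Sys.nc, hne]
        rfl

theorem jn1_cons (g : List α × List α) (l : List (List α × List α)) :
    jn1 (g :: l) = g.1 ++ jn1 l := by
  rw [jn1, jn1, List.map_cons, List.flatten_cons]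

theorem jn2_cons (g : List α × List α) (l : List (List α × List α)) :
    jn2 (g :: l) = g.2 ++ jn2 l := by
  rw [jn2, jn2, List.map_cons, List.flatten_cons]

theorem mem_jn1 {l : List (List α × List α)} (h : ∀ g ∈ l, S.IsJ g) : ∀ p ∈ jn1 l, p ∈ S.P := by
  induction l with
  | nil => simp [jn1]
  | cons g l ih =>
    rw [jn1_cons]
    intro p hp
    rcases List.mem_append.1 hp with hp | hp
    · exact (h g (by simp)).1 p hp
    · exact ih (fun g hg => h g (by simp [hg])) p hp

theorem mem_jn2 {l : List (List α × List α)} (h : ∀ g ∈ l, S.IsJ g) : ∀ p ∈ jn2 l, p ∈ S.P := by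
  induction l with
  | nil => simp [jn2]
  | cons g l ih =>
    rw [jn2_cons]
    intro p hp
    rcases List.mem_append.1 hp with hp | hp
    · exact (h g (by simp)).2.1 p hp
    · exact ih (fun g hg => h g (by simp [hg])) p hp

theorem IsJ_eq {g1 g2 : List α × List α} {L L' : List α} (hL : ∀ p ∈ L, p ∈ S.P)
    (hL' : ∀ p ∈ L', p ∈ S.P) (h1 : S.IsJ g1) (h2 : S.IsJ g2) (a1 : g1.1 <+: L) (a2 : g2.1 <+: L)
    (b1 : g1.2 <+: L') (b2 : g2.2 <+: L') (hle : S.ht g1.1 ≤ S.ht g2.1) : g1 = g2 := by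
  have c1 : g1.1 <+: g2.1 := S.prefix_of_ht_le hL a1 a2 hle
  have c2 : g1.2 <+: g2.2 := S.prefix_of_ht_le hL' b1 b2 (by
    rw [← h1.2.2.1, ← h2.2.2.1]
    exact hle)
  have c3 : S.ht g1.1 = S.ht g2.1 := h2.2.2.2.2 _ _ c1 c2 h1.2.2.1 h1.2.2.2.1
  have c4 : g1.1 = g2.1 := S.prefix_eq_of_ht hL a1 a2 c3
  have c5 : g1.2 = g2.2 := S.prefix_eq_of_ht hL' b1 b2 (by
    rw [← h1.2.2.1, ← h2.2.2.1, c3])
  exact Prod.ext c4 c5

theorem no_JR {g : List α × List α} {R R' : List α} (hg : S.IsJ g) (hR : S.IsR (R, R'))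
    (a : g.1 <+: R) (b : g.2 <+: R') : False := by
  have h := hR g.1 g.2 a b hg.2.2.1
  have h1 := hg.2.2.2.1
  omega

theorem jp_unique : ∀ (l₁ l₂ : List (List α × List α)) (R₁ R₁' R₂ R₂' : List α),
    (∀ g ∈ l₁, S.IsJ g) → (∀ g ∈ l₂, S.IsJ g) → S.IsR (R₁, R₁') → S.IsR (R₂, R₂') →
    (∀ p ∈ R₁, p ∈ S.P) → (∀ p ∈ R₁', p ∈ S.P) → (∀ p ∈ R₂, p ∈ S.P) → (∀ p ∈ R₂', p ∈ S.P) →
    jn1 l₁ ++ R₁ = jn1 l₂ ++ R₂ → jn2 l₁ ++ R₁' = jn2 l₂ ++ R₂' →
    l₁ = l₂ ∧ R₁ = R₂ ∧ R₁' = R₂' := by
  intro l₁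
  induction l₁ with
  | nil =>
    intro l₂ R₁ R₁' R₂ R₂' h1 h2 r1 r2 p1 p1' p2 p2' e e'
    cases l₂ with
    | nil =>
      refine ⟨rfl, ?_, ?_⟩
      · simpa [jn1] using e
      · simpa [jn2] using e'
    | cons g l =>
      exfalso
      rw [jn1_cons, List.append_assoc] at e
      rw [jn2_cons, List.append_assoc] at e'
      refine no_JR S (h2 g (by simp)) r1 ?_ ?_
      · have : jn1 ([] : List (List α × List α)) ++ R₁ = R₁ := rfl
        rw [← this, e]
        exact List.prefix_append _ _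
      · have : jn2 ([] : List (List α × List α)) ++ R₁' = R₁' := rfl
        rw [← this, e']
        exact List.prefix_append _ _
  | cons g₁ l₁ ih =>
    intro l₂ R₁ R₁' R₂ R₂' h1 h2 r1 r2 p1 p1' p2 p2' e e'
    cases l₂ with
    | nil =>
      exfalso
      rw [jn1_cons, List.append_assoc] at e
      rw [jn2_cons, List.append_assoc] at e'
      refine no_JR S (h1 g₁ (by simp)) r2 ?_ ?_
      · have : jn1 ([] : List (List α × List α)) ++ R₂ = R₂ := rfl
        rw [← this, ← e]
        exact List.prefix_append _ _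
      · have : jn2 ([] : List (List α × List α)) ++ R₂' = R₂' := rfl
        rw [← this, ← e']
        exact List.prefix_append _ _
    | cons g₂ l₂ =>
      have hL : ∀ p ∈ jn1 (g₁ :: l₁) ++ R₁, p ∈ S.P := by
        intro p hp
        rcases List.mem_append.1 hp with hp | hp
        · exact mem_jn1 S h1 p hp
        · exact p1 p hp
      have hL' : ∀ p ∈ jn2 (g₁ :: l₁) ++ R₁', p ∈ S.P := by
        intro p hp
        rcases List.mem_append.1 hp with hp | hp
        · exact mem_jn2 S h1 p hp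
        · exact p1' p hp
      have a1 : g₁.1 <+: jn1 (g₁ :: l₁) ++ R₁ := by
        rw [jn1_cons, List.append_assoc]
        exact List.prefix_append _ _
      have b1 : g₁.2 <+: jn2 (g₁ :: l₁) ++ R₁' := by
        rw [jn2_cons, List.append_assoc]
        exact List.prefix_append _ _
      have a2 : g₂.1 <+: jn1 (g₁ :: l₁) ++ R₁ := by
        rw [e, jn1_cons, List.append_assoc]
        exact List.prefix_append _ _
      have b2 : g₂.2 <+: jn2 (g₁ :: l₁) ++ R₁' := by
        rw [e', jn2_cons, List.append_assoc]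
        exact List.prefix_append _ _
      have hgg : g₁ = g₂ := by
        rcases le_total (S.ht g₁.1) (S.ht g₂.1) with h | h
        · exact IsJ_eq S hL hL' (h1 g₁ (by simp)) (h2 g₂ (by simp)) a1 a2 b1 b2 h
        · exact (IsJ_eq S hL hL' (h2 g₂ (by simp)) (h1 g₁ (by simp)) a2 a1 b2 b1 h).symm
      subst hgg
      rw [jn1_cons, jn1_cons, List.append_assoc, List.append_assoc] at e
      rw [jn2_cons, jn2_cons, List.append_assoc, List.append_assoc] at e'
      obtain ⟨q1, q2, q3⟩ := ih l₂ R₁ R₁' R₂ R₂' (fun g hg => h1 g (by simp [hg]))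
        (fun g hg => h2 g (by simp [hg])) r1 r2 p1 p1' p2 p2' (List.append_cancel_left e)
        (List.append_cancel_left e')
      exact ⟨by rw [q1], q2, q3⟩

end

theorem jp : StJP := by
  intro α _ S
  exact ⟨fun L L' hL hL' => jp_exists S _ L L' rfl hL hL', jp_unique S⟩

end Pool.PT
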